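import Pool.Agent.H951R3.PB.Main

/-!
# Sum version of the bound of the moduli height by local sizes; orbits of wandering points
-/

set_option autoImplicit false

namespace Pool.Agent.TH450.DL

open Real Filter Topology NumberField Pool.Agent.H951R3.PB Pool.Agent.H951R3.PB.G4

universe u

/-- the moduli height is bounded by the sum of the local sizes -/
theorem hmod_le_sum (d : ℕ) (hd : 2 ≤ d) (k l : ℕ)
    (P : Fin l → MvPolynomial (Fin 2 × Fin (d + 1)) ℤ) (hP : ∀ j, IsInv.{u} d k (P j)) :
    ∃ C : ℝ, 0 < C ∧ ∀ (K : Type u) [Field K] [NumberField K],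
    ∀ f : Fin 2 → MvPolynomial (Fin 2) K, (∀ i, (f i).IsHomogeneous d) → rs f d ≠ 0 →
    ∀ (wi : InfinitePlace K → AbsoluteValue (AlgebraicClosure K) ℝ) (_ : ∀ v, Ext v.val (wi v))
      (wf : FinitePlace K → AbsoluteValue (AlgebraicClosure K) ℝ) (_ : ∀ v, Ext v.val (wf v))
      (T : Finset (FinitePlace K)), (∀ v, v ∉ T → PotGood v.val d f) →
      hmod d k l P f ≤
        C * (∑ v : InfinitePlace K, (1 + max (msz d f (wi v)) 0) +
          ∑ v ∈ T, (1 + max (msz d f (wf v)) 0)) := by
  classical
  choose Bf hBf0 hBf using fun j => inv_le.{u} d hd k (P j) (hP j)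
  set B : ℝ := ∑ j, Bf j with hBdef
  have hB0 : 0 ≤ B := Finset.sum_nonneg fun j _ => hBf0 j
  have hBle : ∀ j, Bf j ≤ B := fun j =>
    Finset.single_le_sum (f := Bf) (fun i _ => hBf0 i) (Finset.mem_univ j)
  refine ⟨2 * (k + B + 1), by positivity, ?_⟩
  intro K _ _ f hf h0 wi hwi wf hwf T hT
  have h0L : rs (fL K f) d ≠ 0 := by
    rw [rs_fL]
    exact (map_ne_zero _).2 h0
  have hfL : ∀ i, (fL K f i).IsHomogeneous d := fun i => (hf i).map _
  -- the local bound
  have hloc : ∀ (v : AbsoluteValue K ℝ) (w : AbsoluteValue (AlgebraicClosure K) ℝ), Ext v w →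
      ∀ j, v (MvPolynomial.aeval (cf d f) (P j) / rs f d ^ k) ≤
        exp (k * max (msz d f w) 0 + B) := by
    intro v w hvw j
    rw [ext_inv d k f (P j) hvw]
    refine (hBf j (AlgebraicClosure K) w (fL K f) hfL h0L).trans (exp_le_exp.2 ?_)
    have h1 : (k : ℝ) * mm w (ev (fL K f)) d (log (w (rs (fL K f) d))) ≤
        k * max (msz d f w) 0 :=
      mul_le_mul_of_nonneg_left (le_max_left _ _) (Nat.cast_nonneg k)
    have h2 := hBle j
    linarith
  -- the normalised vector
  set x : Option (Fin l) → K := fun j =>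
    j.elim 1 (fun i => MvPolynomial.aeval (cf d f) (P i) / rs f d ^ k) with hx
  have hxnone : x none = 1 := rfl
  have hxsome : ∀ j, x (some j) = MvPolynomial.aeval (cf d f) (P j) / rs f d ^ k :=
    fun j => rfl
  have hx0 : x ≠ 0 := by
    intro h
    have := congrFun h none
    rw [hxnone] at this
    exact one_ne_zero this
  have hrk : rs f d ^ k ≠ 0 := pow_ne_zero _ h0
  have hvec : (fun j : Option (Fin l) =>
      j.elim (rs f d ^ k) (fun i => MvPolynomial.aeval (cf d f) (P i))) = (rs f d ^ k) • x := by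
    funext j
    cases j with
    | none => simp [hxnone]
    | some j =>
      rw [Pi.smul_apply, hxsome, smul_eq_mul, mul_div_cancel₀ _ hrk]
      rfl
  have hh : hmod d k l P f = Height.logHeight x := by
    unfold hmod
    rw [hvec, Height.logHeight_smul_eq_logHeight x hrk]
  rw [hh]
  have hE0 : ∀ w, 0 ≤ (k : ℝ) * max (msz d f w) 0 + B := fun w => by
    have : 0 ≤ max (msz d f w) 0 := le_max_right _ _
    positivity
  -- estimates for the sup
  have hsupI : ∀ v : InfinitePlace K, (⨆ i, v (x i)) ≤ exp (k * max (msz d f (wi v)) 0 + B) := by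
    intro v
    refine ciSup_le fun i => ?_
    cases i with
    | none =>
      rw [hxnone, map_one]
      exact one_le_exp (hE0 _)
    | some j => exact hloc v.val (wi v) (hwi v) j
  have hsupF : ∀ v : FinitePlace K,
      (⨆ i, v (x i)) ≤ exp (k * max (msz d f (wf v)) 0 + B) := by
    intro v
    refine ciSup_le fun i => ?_
    cases i with
    | none =>
      rw [hxnone, map_one]
      exact one_le_exp (hE0 _)
    | some j => exact hloc v.val (wf v) (hwf v) j
  have hone : ∀ v : FinitePlace K, 1 ≤ ⨆ i, v (x i) := by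
    intro v
    have h1 : v (x none) ≤ ⨆ i, v (x i) :=
      le_ciSup (f := fun i => v (x i)) (Set.finite_range _).bddAbove none
    rwa [hxnone, map_one] at h1
  have honeI : ∀ v : InfinitePlace K, 0 ≤ ⨆ i, v (x i) := by
    intro v
    have h1 : v (x none) ≤ ⨆ i, v (x i) :=
      le_ciSup (f := fun i => v (x i)) (Set.finite_range _).bddAbove none
    rw [hxnone, map_one] at h1
    linarith
  have hsupp : Function.mulSupport (fun v : FinitePlace K => ⨆ i, v (x i)) ⊆ ↑T := by
    intro v hv
    by_contra hvS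
    apply hv
    have hpg : PotGood v.val d f := hT v hvS
    refine le_antisymm (ciSup_le fun i => ?_) (hone v)
    cases i with
    | none => rw [hxnone, map_one]
    | some j => exact inv_le_potgood hd k (P j) (hP j) hf h0 v hpg
  set sI : ℝ := ∑ v : InfinitePlace K, (1 + max (msz d f (wi v)) 0) with hsI
  set sF : ℝ := ∑ v ∈ T, (1 + max (msz d f (wf v)) 0) with hsF
  have hterm : ∀ w, (k : ℝ) * max (msz d f w) 0 + B ≤ (k + B + 1) * (1 + max (msz d f w) 0) := by
    intro w
    have h1 : 0 ≤ max (msz d f w) 0 := le_max_right _ _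
    have hk : (0 : ℝ) ≤ k := Nat.cast_nonneg k
    nlinarith [mul_nonneg hB0 h1]
  have hmul : Height.mulHeight x ≤ exp (2 * (k + B + 1) * (sI + sF)) := by
    rw [NumberField.mulHeight_eq hx0, finprod_eq_prod_of_mulSupport_subset _ hsupp]
    have h1 : ∏ v : InfinitePlace K, (⨆ i, v (x i)) ^ v.mult ≤
        exp (2 * (k + B + 1) * sI) := by
      calc ∏ v : InfinitePlace K, (⨆ i, v (x i)) ^ v.mult
          ≤ ∏ v : InfinitePlace K, exp (2 * (k + B + 1) * (1 + max (msz d f (wi v)) 0)) := by
            refine Finset.prod_le_prod (fun v _ => pow_nonneg (honeI v) _) (fun v _ => ?_)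
            calc (⨆ i, v (x i)) ^ v.mult
                ≤ exp (k * max (msz d f (wi v)) 0 + B) ^ v.mult :=
                  pow_le_pow_left₀ (honeI v) (hsupI v) _
              _ ≤ exp (k * max (msz d f (wi v)) 0 + B) ^ 2 := by
                  refine pow_le_pow_right₀ (one_le_exp (hE0 _)) ?_
                  unfold InfinitePlace.mult
                  split_ifs <;> norm_num
              _ = exp (2 * (k * max (msz d f (wi v)) 0 + B)) := by
                  rw [← exp_nat_mul]
                  norm_num
              _ ≤ _ := by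
                  refine exp_le_exp.2 ?_
                  have := hterm (wi v)
                  linarith
        _ = exp (2 * (k + B + 1) * sI) := by
            rw [← Real.exp_sum, hsI, Finset.mul_sum]
    have h2 : ∏ v ∈ T, (⨆ i, v (x i)) ≤ exp (2 * (k + B + 1) * sF) := by
      calc ∏ v ∈ T, (⨆ i, v (x i))
          ≤ ∏ v ∈ T, exp (2 * (k + B + 1) * (1 + max (msz d f (wf v)) 0)) := by
            refine Finset.prod_le_prod (fun v _ => zero_le_one.trans (hone v)) (fun v _ => ?_)
            refine (hsupF v).trans (exp_le_exp.2 ?_)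
            have h1 := hterm (wf v)
            have h2 := hE0 (wf v)
            linarith
        _ = exp (2 * (k + B + 1) * sF) := by
            rw [← Real.exp_sum, hsF, Finset.mul_sum]
    rw [mul_add, exp_add]
    exact mul_le_mul h1 h2 (Finset.prod_nonneg fun v _ => zero_le_one.trans (hone v))
      (exp_pos _).le
  rw [Height.logHeight_eq_log_mulHeight]
  exact (log_le_iff_le_exp (Height.mulHeight_pos x)).2 hmul

/-- from the number of small points to a lower bound for the height of wandering points -/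
theorem wander_gen {K : Type u} [Field K] [NumberField K] {d : ℕ} (hd : 2 ≤ d)
    {f : Fin 2 → MvPolynomial (Fin 2) K} (hf : ∀ i, (f i).IsHomogeneous d) (h0 : rs f d ≠ 0)
    {A η : ℝ} (hA : 0 ≤ A) (hη : 0 < η)
    (hsm : ∀ X : Finset (Fin 2 → K), (∀ x ∈ X, x ≠ 0) →
      (∀ x ∈ X, ∀ y ∈ X, x ≠ y → wd x y ≠ 0) → (∀ x ∈ X, hcan d f x ≤ η) →
      (X.card : ℝ) ≤ A)
    {x : Fin 2 → K} (hx : x ≠ 0) (hpre : ¬ Pre f x) :
    η * exp (-(A * log d)) ≤ hcan d f x := by
  classical
  have hd1 : (1 : ℝ) < d := by exact_mod_cast (by omega : 1 < d)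
  have hd0 : (0 : ℝ) < d := by linarith
  have hlogd : 0 < log (d : ℝ) := Real.log_pos hd1
  by_contra hcon
  push Not at hcon
  -- the orbit
  have hy0 : ∀ j : ℕ, (ev f)^[j] x ≠ 0 := by
    intro j
    induction j with
    | zero => simpa using hx
    | succ j ih =>
      rw [Function.iterate_succ_apply']
      exact G6aux.ev_ne_zero (by omega) hf h0 ih
  have hyh : ∀ j : ℕ, hcan d f ((ev f)^[j] x) = (d : ℝ) ^ j * hcan d f x := by
    intro j
    induction j with
    | zero => simp
    | succ j ih =>
      rw [Function.iterate_succ_apply', hcan_map hd hf h0 (hy0 j), ih, pow_succ]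
      ring
  have hind : ∀ i j : ℕ, i < j → wd ((ev f)^[i] x) ((ev f)^[j] x) ≠ 0 := by
    intro i j hij h
    obtain ⟨a, ha, hya⟩ := G6aux.parallel (hy0 i) (hy0 j) h
    exact hpre ⟨i, j, hij, a, ha, hya⟩
  have hx0 : 0 ≤ hcan d f x := hcan_nonneg hd hf h0 hx
  obtain ⟨n, hn⟩ : ∃ n : ℕ, n = ⌊A⌋₊ := ⟨_, rfl⟩
  have hnT : (n : ℝ) ≤ A := by
    rw [hn]
    exact Nat.floor_le hA
  have hnT' : A < n + 1 := by
    rw [hn]
    exact Nat.lt_floor_add_one _
  have hwd_self : ∀ z : Fin 2 → K, wd z z = 0 := fun z => by unfold wd; ring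
  have hinj : Set.InjOn (fun j => (ev f)^[j] x) (Finset.range (n + 1) : Set ℕ) := by
    intro i _ j _ hij
    simp only at hij
    rcases lt_trichotomy i j with h | h | h
    · exfalso
      apply hind i j h
      rw [hij]
      exact hwd_self _
    · exact h
    · exfalso
      apply hind j i h
      rw [hij]
      exact hwd_self _
  have hbound : (d : ℝ) ^ n * (η * exp (-(A * log d))) ≤ η := by
    have e1 : (d : ℝ) ^ n = exp (n * log d) := by
      rw [mul_comm, Real.exp_mul, Real.exp_log hd0, Real.rpow_natCast]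
    rw [e1, mul_left_comm, ← Real.exp_add]
    have e2 : (n : ℝ) * log d + -(A * log d) ≤ 0 := by
      have e4 : (n : ℝ) * log d ≤ A * log d := mul_le_mul_of_nonneg_right hnT hlogd.le
      linarith
    calc η * exp (n * log d + -(A * log d)) ≤ η * 1 :=
          mul_le_mul_of_nonneg_left (Real.exp_le_one_iff.2 e2) hη.le
      _ = η := mul_one _
  have hX := hsm ((Finset.range (n + 1)).image (fun j => (ev f)^[j] x))
    (by
      intro z hz
      obtain ⟨j, _, rfl⟩ := Finset.mem_image.mp hz
      exact hy0 j)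
    (by
      intro z hz z' hz' hne
      obtain ⟨i, _, rfl⟩ := Finset.mem_image.mp hz
      obtain ⟨j, _, rfl⟩ := Finset.mem_image.mp hz'
      rcases lt_trichotomy i j with h | h | h
      · exact hind i j h
      · exact absurd (by rw [h]) hne
      · intro hw
        apply hind j i h
        have : wd ((ev f)^[j] x) ((ev f)^[i] x) = - wd ((ev f)^[i] x) ((ev f)^[j] x) := by
          unfold wd; ring
        rw [this, hw, neg_zero])
    (by
      intro z hz
      obtain ⟨j, hj, rfl⟩ := Finset.mem_image.mp hz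
      have hjn : j ≤ n := by
        have := Finset.mem_range.mp hj
        omega
      show hcan d f ((ev f)^[j] x) ≤ η
      rw [hyh j]
      calc (d : ℝ) ^ j * hcan d f x ≤ (d : ℝ) ^ n * hcan d f x :=
            mul_le_mul_of_nonneg_right (pow_le_pow_right₀ hd1.le hjn) hx0
        _ ≤ (d : ℝ) ^ n * (η * exp (-(A * log d))) :=
            mul_le_mul_of_nonneg_left hcon.le (by positivity)
        _ ≤ η := hbound)
  rw [Finset.card_image_of_injOn hinj, Finset.card_range] at hX
  push_cast at hX
  linarith

end Pool.Agent.TH450.DL
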