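import Pool.Agent.TH450.DL.A

/-!
# Lower bound for canonical heights of wandering points in terms of the moduli height
-/

set_option autoImplicit false

namespace Pool.Agent.TH450.DL

open Real Filter Topology NumberField Pool.Agent.H951R3.PB

universe u

/-- a linear factor is absorbed by the exponential -/
theorem absorb {C : ℝ} (hC : 0 ≤ C) {R : ℝ} (hR : 1 ≤ R) :
    C + C * R + 1 ≤ exp ((1 + log (2 * C + 1) / log 2) * (R * log (1 + R))) := by
  have hl2 : 0 < log (2 : ℝ) := log_pos (by norm_num)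
  have hlR : log 2 ≤ log (1 + R) := log_le_log (by norm_num) (by linarith)
  have hl0 : 0 < log (1 + R) := lt_of_lt_of_le hl2 hlR
  have hlC : 0 ≤ log (2 * C + 1) := log_nonneg (by linarith)
  have h1 : C + C * R + 1 ≤ (2 * C + 1) * (1 + R) := by nlinarith
  refine h1.trans ?_
  have h2 : (2 * C + 1) * (1 + R) = exp (log ((2 * C + 1) * (1 + R))) := by
    rw [exp_log (by positivity)]
  rw [h2]
  refine exp_le_exp.2 ?_
  rw [log_mul (by positivity) (by positivity)]
  have h3 : log (1 + R) ≤ R * log (1 + R) := by nlinarith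
  have h4 : log 2 ≤ R * log (1 + R) := hlR.trans h3
  have h5 : log (2 * C + 1) ≤ log (2 * C + 1) / log 2 * (R * log (1 + R)) := by
    rw [div_mul_eq_mul_div, le_div_iff₀ hl2]
    exact mul_le_mul_of_nonneg_left h4 hlC
  linarith

theorem lang_conc (d : ℕ) (hd : 2 ≤ d) (D k l : ℕ)
    (P : Fin l → MvPolynomial (Fin 2 × Fin (d + 1)) ℤ) (hP : ∀ j, IsInv.{u} d k (P j)) :
    ∃ C : ℝ, 0 < C ∧ ∀ (K : Type u) [Field K] [NumberField K], Module.finrank ℚ K ≤ D →
    ∀ f : Fin 2 → MvPolynomial (Fin 2) K, (∀ i, (f i).IsHomogeneous d) →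
      (∀ x : Fin 2 → AlgebraicClosure K, (∀ i, MvPolynomial.aeval x (f i) = 0) → x = 0) →
    ∀ T : Finset (FinitePlace K), (∀ v, v ∉ T → PotGood v.val d f) →
    ∀ R : ℝ, 1 ≤ R →
      ((T.card : ℝ) ≤ R ∨
        ∃ (wi : InfinitePlace K → AbsoluteValue (AlgebraicClosure K) ℝ)
          (wf : FinitePlace K → AbsoluteValue (AlgebraicClosure K) ℝ)
          (j : InfinitePlace K ⊕ T), (∀ v, Ext v.val (wi v)) ∧ (∀ v, Ext v.val (wf v)) ∧
          ∑ v : InfinitePlace K, (1 + max (msz d f (wi v)) 0) +
            ∑ v ∈ T, (1 + max (msz d f (wf v)) 0) ≤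
            R * (1 + max (msz d f (Sum.elim wi (fun v : T => wf v.1) j)) 0)) →
    ∀ x : Fin 2 → K, x ≠ 0 → ¬ Pre f x →
      exp (-C * R * log (1 + R)) * (1 + hmod d k l P f) ≤ hcan d f x := by
  obtain ⟨C₁, hC₁, h1⟩ := lang.{u} d hd D k l P hP
  obtain ⟨C₂, c₂, hC₂, hc₂, h2⟩ := small_points_conc.{u} d hd D
  obtain ⟨C₃, hC₃, h3⟩ := hmod_le_sum.{u} d hd k l P hP
  have hl2 : 0 < log (2 : ℝ) := log_pos (by norm_num)
  have hd1 : (1 : ℝ) < d := by exact_mod_cast (by omega : 1 < d)
  have hlogd : 0 < log (d : ℝ) := Real.log_pos hd1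
  set E : ℝ := C₂ * log d + (1 + log (2 * C₃ + 1) / log 2) + max 0 (-log c₂) / log 2 with hE
  have hlC3 : 0 ≤ log (2 * C₃ + 1) := log_nonneg (by linarith)
  have hE0 : 0 < E := by positivity
  refine ⟨max (4 * C₁) E, lt_of_lt_of_le hE0 (le_max_right _ _), ?_⟩
  intro K _ _ hfin f hf hz T hT R hR1 hR x hx hpre
  have h0 : rs f d ≠ 0 := rs_ne_of_noZero (by omega) hf hz
  have hlR : log 2 ≤ log (1 + R) := log_le_log (by norm_num) (by linarith)
  have hl0 : 0 < log (1 + R) := lt_of_lt_of_le hl2 hlR
  have hRl : 0 < R * log (1 + R) := by positivity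
  have hh0 : 0 ≤ hmod d k l P f := Height.logHeight_nonneg _
  rcases hR with hR | ⟨wi, wf, j, hwi, hwf, hR⟩
  · have h4 := h1 K hfin f hf hz x hx hpre
    refine le_trans ?_ h4
    refine mul_le_mul_of_nonneg_right (exp_le_exp.2 ?_) (by linarith)
    set s : ℝ := ({v : FinitePlace K | ¬ PotGood v.val d f}.ncard : ℝ) with hs
    have hs0 : 0 ≤ s := Nat.cast_nonneg _
    have hsR : s ≤ R := by
      refine le_trans ?_ hR
      have h4 : {v : FinitePlace K | ¬ PotGood v.val d f}.ncard ≤ T.card := by
        rw [← Set.ncard_coe_finset T]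
        refine Set.ncard_le_ncard (fun v hv => ?_) (Finset.finite_toSet T)
        by_contra hcon
        exact hv (hT v hcon)
      rw [hs]
      exact_mod_cast h4
    have h5 : log (s + 2) ≤ 2 * log (1 + R) := by
      have h5 : log (s + 2) ≤ log ((1 + R) ^ 2) := by
        refine log_le_log (by linarith) ?_
        nlinarith
      rwa [log_pow] at h5
    have h6 : 0 ≤ log (s + 2) := log_nonneg (by linarith)
    have h7 : (s + 1) * log (s + 2) ≤ (2 * R) * (2 * log (1 + R)) := by
      have h8 : s + 1 ≤ 2 * R := by linarith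
      gcongr
    have h8 : C₁ * ((s + 1) * log (s + 2)) ≤ max (4 * C₁) E * (R * log (1 + R)) := by
      calc C₁ * ((s + 1) * log (s + 2)) ≤ C₁ * ((2 * R) * (2 * log (1 + R))) := by gcongr
        _ = (4 * C₁) * (R * log (1 + R)) := by ring
        _ ≤ _ := mul_le_mul_of_nonneg_right (le_max_left _ _) hRl.le
    linarith
  · set μ : ℝ := max (msz d f (Sum.elim wi (fun v : T => wf v.1) j)) 0 with hμ
    have hμ0 : 0 ≤ μ := le_max_right _ _
    have h4 := wander_gen hd hf h0 (A := C₂ * R * log (1 + R)) (η := c₂ * (1 + μ))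
      (by positivity) (by positivity)
      (fun X hX0 hX hcX => h2 K hfin f hf h0 wi hwi wf hwf T hT R j hR1 hR X hX0 hX hcX)
      hx hpre
    have h5 := h3 K f hf h0 wi hwi wf hwf T hT
    have h6 : hmod d k l P f ≤ C₃ * (R * (1 + μ)) :=
      h5.trans (mul_le_mul_of_nonneg_left hR hC₃.le)
    have h7 := absorb hC₃.le hR1
    have h8 : 1 + hmod d k l P f ≤
        exp ((1 + log (2 * C₃ + 1) / log 2) * (R * log (1 + R))) * (1 + μ) := by
      refine le_trans ?_ (mul_le_mul_of_nonneg_right h7 (by linarith))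
      have : 0 ≤ C₃ * (1 + μ) := by positivity
      nlinarith
    have h9 : exp (-(max 0 (-log c₂) / log 2 * (R * log (1 + R)))) ≤ c₂ := by
      have h10 : log 2 ≤ R * log (1 + R) := by nlinarith
      have h11 : max 0 (-log c₂) ≤ max 0 (-log c₂) / log 2 * (R * log (1 + R)) := by
        rw [div_mul_eq_mul_div, le_div_iff₀ hl2]
        exact mul_le_mul_of_nonneg_left h10 (le_max_left _ _)
      calc exp (-(max 0 (-log c₂) / log 2 * (R * log (1 + R)))) ≤ exp (log c₂) := by
            refine exp_le_exp.2 ?_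
            have := le_max_right 0 (-log c₂)
            linarith
        _ = c₂ := exp_log hc₂
    calc exp (-max (4 * C₁) E * R * log (1 + R)) * (1 + hmod d k l P f)
        ≤ exp (-E * (R * log (1 + R))) * (1 + hmod d k l P f) := by
          refine mul_le_mul_of_nonneg_right (exp_le_exp.2 ?_) (by linarith)
          have h12 : E * (R * log (1 + R)) ≤ max (4 * C₁) E * (R * log (1 + R)) :=
            mul_le_mul_of_nonneg_right (le_max_right _ _) hRl.le
          linarith
      _ ≤ exp (-E * (R * log (1 + R))) *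
          (exp ((1 + log (2 * C₃ + 1) / log 2) * (R * log (1 + R))) * (1 + μ)) :=
          mul_le_mul_of_nonneg_left h8 (exp_pos _).le
      _ = exp (-(max 0 (-log c₂) / log 2 * (R * log (1 + R)))) * ((1 + μ) *
          exp (-(C₂ * R * log (1 + R) * log d))) := by
          have e1 : exp (-E * (R * log (1 + R))) *
              exp ((1 + log (2 * C₃ + 1) / log 2) * (R * log (1 + R))) =
              exp (-(max 0 (-log c₂) / log 2 * (R * log (1 + R)))) *
                exp (-(C₂ * R * log (1 + R) * log d)) := by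
            rw [← exp_add, ← exp_add]
            congr 1
            rw [hE]
            ring
          calc exp (-E * (R * log (1 + R))) *
              (exp ((1 + log (2 * C₃ + 1) / log 2) * (R * log (1 + R))) * (1 + μ)) =
              (exp (-E * (R * log (1 + R))) *
                exp ((1 + log (2 * C₃ + 1) / log 2) * (R * log (1 + R)))) * (1 + μ) := by ring
            _ = _ := by
              rw [e1]
              ring
      _ ≤ c₂ * ((1 + μ) * exp (-(C₂ * R * log (1 + R) * log d))) :=
          mul_le_mul_of_nonneg_right h9 (by positivity)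
      _ = c₂ * (1 + μ) * exp (-(C₂ * R * log (1 + R) * log d)) := by ring
      _ ≤ hcan d f x := h4

end Pool.Agent.TH450.DL
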